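import Pool.Agent.Q25.NW.Main
import Pool.Agent.Y134.LP.Para

/-!
# Words defining group laws on all free nilpotent groups

The words with property (N) are exactly `ab` and `ba`.
-/

set_option autoImplicit false

namespace Pool.Agent.Results.MP_c4ae4c_al.OnlyTwoWords

/-- `γ_k(F_n)`, `k ≥ 1`, for the free group `F_n` of rank `n`: `γ_1(F_n) = F_n` and
`γ_{k+1}(F_n) = [γ_k(F_n), F_n]`. (Mathlib's lower central series starts with the index `0`.) -/
def gam (n k : ℕ) : Subgroup (FreeGroup (Fin n)) :=
  (⊤ : Subgroup (FreeGroup (Fin n))).lowerCentralSeries (k - 1)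

instance (n k : ℕ) : (gam n k).Normal := by unfold gam; infer_instance

/-- The value `w(x,y)` of the word `w ∈ F_2 = ⟨a,b⟩` (`a = FreeGroup.of 0`, `b = FreeGroup.of 1`) at
elements `x, y` of a group. -/
def word {G : Type} [Group G] (w : FreeGroup (Fin 2)) (x y : G) : G := FreeGroup.lift ![x, y] w

/-- The binary operation `op` makes the set `S` into a group. -/
def IsGroupOp {S : Type} (op : S → S → S) : Prop :=
  (∀ x y z, op (op x y) z = op x (op y z)) ∧
  ∃ e, (∀ x, op e x = x ∧ op x e = x) ∧ ∀ x, ∃ y, op x y = e ∧ op y x = e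

/-- Property (N). -/
def PropertyN (w : FreeGroup (Fin 2)) : Prop :=
  ∀ n, 2 ≤ n → ∀ k, 1 ≤ k →
    IsGroupOp (fun x y : FreeGroup (Fin n) ⧸ gam n k => word w x y)

open Pool.Agent.Q25.NW

theorem law_of_N {w : FreeGroup (Fin 2)} (h : PropertyN w) : Law w := by
  have hone : ev w (Multiplicative.ofAdd (1 : ℤ)) 1 = Multiplicative.ofAdd (1 : ℤ) ∧
      ev w 1 (Multiplicative.ofAdd (1 : ℤ)) = Multiplicative.ofAdd (1 : ℤ) := by
    obtain ⟨_, e, he, _⟩ := h 2 le_rfl 2 (by norm_num)
    let f0 : FreeGroup (Fin 2) →* Multiplicative ℤ := FreeGroup.lift fun _ => Multiplicative.ofAdd (1 : ℤ)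
    have hker : ∀ x ∈ gam 2 2, f0 x = 1 := by
      intro x hx
      have h1 : gam 2 2 = commutator (FreeGroup (Fin 2)) := by
        unfold gam
        exact Subgroup.top_lowerCentralSeries_one
      rw [h1] at hx
      exact (Abelianization.commutator_subset_ker f0) hx
    let f : FreeGroup (Fin 2) ⧸ gam 2 2 →* Multiplicative ℤ := QuotientGroup.lift (gam 2 2) f0 hker
    have hf : f (QuotientGroup.mk (FreeGroup.of 0)) = Multiplicative.ofAdd (1 : ℤ) := by
      change f0 (FreeGroup.of 0) = _
      simp [f0]
    have e1 : ∀ x, ev w (f e) (f x) = f x := by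
      intro x
      rw [← map_ev]
      exact congrArg f (he x).1
    have e2 : ∀ x, ev w (f x) (f e) = f x := by
      intro x
      rw [← map_ev]
      exact congrArg f (he x).2
    have e3 : ev w (f e) 1 = 1 := by
      have := e1 1
      rwa [map_one] at this
    have e4 : ev w 1 (f e) = 1 := by
      have := e2 1
      rwa [map_one] at this
    constructor
    · have := e2 (QuotientGroup.mk (FreeGroup.of 0))
      rw [hf, ev_comm, e4, mul_one] at this
      exact this
    · have := e1 (QuotientGroup.mk (FreeGroup.of 0))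
      rw [hf, ev_comm, e3, one_mul] at this
      exact this
  refine ⟨?_, ?_, ?_⟩
  · have key : ev w (ev w (FreeGroup.of (0 : Fin 3)) (FreeGroup.of 1)) (FreeGroup.of 2)
        = ev w (FreeGroup.of 0) (ev w (FreeGroup.of 1) (FreeGroup.of 2)) := by
      rw [← mul_inv_eq_one]
      apply Pool.Agent.Y134.LP.lcs_bot'
      intro k
      have h1 := (h 3 (by norm_num) (k + 1) (by omega)).1 (QuotientGroup.mk' _ (FreeGroup.of 0))
        (QuotientGroup.mk' _ (FreeGroup.of 1)) (QuotientGroup.mk' _ (FreeGroup.of 2))
      change ev w (ev w _ _) _ = ev w _ (ev w _ _) at h1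
      simp only [← map_ev] at h1
      have h2 := QuotientGroup.eq.1 h1
      have h3 : gam 3 (k + 1) = (⊤ : Subgroup (FreeGroup (Fin 3))).lowerCentralSeries k := rfl
      rw [← h3]
      have h4 := (inferInstance : (gam 3 (k + 1)).Normal).conj_mem _ h2
        (ev w (FreeGroup.of (0 : Fin 3)) (ev w (FreeGroup.of 1) (FreeGroup.of 2)))
      have h5 := (gam 3 (k + 1)).inv_mem h4
      convert h5 using 1
      group
    intro G _ a b c
    have := congrArg (FreeGroup.lift ![a, b, c]) key
    simpa [map_ev] using this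
  · intro G _ a
    have := congrArg (zpowersHom G a) hone.1
    simpa [map_ev] using this
  · intro G _ a
    have := congrArg (zpowersHom G a) hone.2
    simpa [map_ev] using this

/-- **Q1.** The words with property (N) are exactly `ab` and `ba`. -/
theorem result (w : FreeGroup (Fin 2)) :
    PropertyN w ↔
      w = FreeGroup.of 0 * FreeGroup.of 1 ∨ w = FreeGroup.of 1 * FreeGroup.of 0 := by
  constructor
  · intro h
    exact (law_of_N h).eq
  · rintro (rfl | rfl)
    · intro n _ k _
      refine ⟨fun x y z => by simp [word, mul_assoc], 1, fun x => by simp [word], fun x => ⟨x⁻¹, by simp [word]⟩⟩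
    · intro n _ k _
      refine ⟨fun x y z => by simp [word, mul_assoc], 1, fun x => by simp [word], fun x => ⟨x⁻¹, by simp [word]⟩⟩

end Pool.Agent.Results.MP_c4ae4c_al.OnlyTwoWords
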